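import Pool.Agent.H66.AV.TF

/-!
# One of two protocols accepts
-/

set_option autoImplicit false

namespace Pool.Agent.H42.AVH

open Pool.Agent.H66.AV
open Pool.Agent.H66.IQ

/-- The first examination with the second one at its leaves `false`. -/
def oe {k : ℕ} (T₂ : Exam k) : Exam k → Exam k
  | .leaf true => .leaf true
  | .leaf false => T₂
  | .node M x l r => .node M x (oe T₂ l) (oe T₂ r)

theorem oe_eval {k : ℕ} (O : List Bool → Bool) (T₂ T₁ : Exam k) :
    (oe T₂ T₁).eval O = (T₁.eval O || T₂.eval O) := by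
  induction T₁ with
  | leaf b =>
    cases b
    · simp [oe, Exam.eval]
    · simp [oe, Exam.eval]
  | node M x l r hl hr =>
    simp only [oe, Exam.eval]
    split_ifs with h
    · exact hr
    · exact hl

theorem oe_depth {k : ℕ} (T₂ T₁ : Exam k) : (oe T₂ T₁).depth ≤ T₁.depth + T₂.depth := by
  induction T₁ with
  | leaf b =>
    cases b
    · simp [oe, Exam.depth]
    · simp [oe, Exam.depth]
  | node M x l r hl hr =>
    simp only [oe, Exam.depth]
    omega

theorem oe_small {k : ℕ} (s : ℕ) (T₂ T₁ : Exam k) (h2 : T₂.Small s) (h1 : T₁.Small s) :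
    (oe T₂ T₁).Small s := by
  induction T₁ with
  | leaf b =>
    cases b
    · exact h2
    · exact h1
  | node M x l r hl hr => exact ⟨h1.1, hl h1.2.1, hr h1.2.2⟩

/-- An examination and a protocol. -/
def og {k : ℕ} (T₁ : Exam k) : Prot k → Prot k
  | .test T₂ => .test (oe T₂ T₁)
  | .coin l r => .coin (og T₁ l) (og T₁ r)
  | .say l r => .say (og T₁ l) (og T₁ r)

/-- Two protocols. -/
def op {k : ℕ} (G₂ : Prot k) : Prot k → Prot k
  | .test T₁ => og T₁ G₂
  | .coin l r => .coin (op G₂ l) (op G₂ r)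
  | .say l r => .say (op G₂ l) (op G₂ r)

theorem om {a b a' b' c : ℝ} (hc : 0 ≤ c) (h1 : 1 - a' = c * (1 - a))
    (h2 : 1 - b' = c * (1 - b)) : 1 - max a' b' = c * (1 - max a b) := by
  rcases le_total a b with h | h
  · have h3 : a' ≤ b' := by nlinarith
    rw [max_eq_right h, max_eq_right h3]
    exact h2
  · have h3 : b' ≤ a' := by nlinarith
    rw [max_eq_left h, max_eq_left h3]
    exact h1

theorem val_le {k : ℕ} (O : List Bool → Bool) (G : Prot k) : G.val O ≤ 1 := by
  induction G with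
  | test T =>
    unfold Prot.val
    split_ifs
    · exact le_rfl
    · exact zero_le_one
  | coin l r hl hr =>
    unfold Prot.val
    linarith
  | say l r hl hr => exact max_le hl hr

theorem og_val {k : ℕ} (O : List Bool → Bool) (T₁ : Exam k) (G : Prot k) :
    1 - (og T₁ G).val O = (1 - (Prot.test T₁).val O) * (1 - G.val O) := by
  induction G with
  | test T₂ =>
    simp only [og, Prot.val, oe_eval]
    cases T₁.eval O <;> cases T₂.eval O <;> simp
  | coin l r hl hr =>
    have h1 : (og T₁ (.coin l r)).val O = ((og T₁ l).val O + (og T₁ r).val O) / 2 := rfl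
    have h2 : (Prot.coin l r).val O = (l.val O + r.val O) / 2 := rfl
    rw [h1, h2]
    linear_combination hl / 2 + hr / 2
  | say l r hl hr =>
    have h1 : (og T₁ (.say l r)).val O = max ((og T₁ l).val O) ((og T₁ r).val O) := rfl
    have h2 : (Prot.say l r).val O = max (l.val O) (r.val O) := rfl
    rw [h1, h2]
    exact om (sub_nonneg.2 (val_le O _)) hl hr

theorem op_val {k : ℕ} (O : List Bool → Bool) (G₂ G : Prot k) :
    1 - (op G₂ G).val O = (1 - G₂.val O) * (1 - G.val O) := by
  induction G with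
  | test T₁ =>
    have h1 : op G₂ (.test T₁) = og T₁ G₂ := rfl
    rw [h1, og_val, mul_comm]
  | coin l r hl hr =>
    have h1 : (op G₂ (.coin l r)).val O = ((op G₂ l).val O + (op G₂ r).val O) / 2 := rfl
    have h2 : (Prot.coin l r).val O = (l.val O + r.val O) / 2 := rfl
    rw [h1, h2]
    linear_combination hl / 2 + hr / 2
  | say l r hl hr =>
    have h1 : (op G₂ (.say l r)).val O = max ((op G₂ l).val O) ((op G₂ r).val O) := rfl
    have h2 : (Prot.say l r).val O = max (l.val O) (r.val O) := rfl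
    rw [h1, h2]
    exact om (sub_nonneg.2 (val_le O _)) hl hr

theorem og_moves {k : ℕ} (T₁ : Exam k) (G : Prot k) : (og T₁ G).moves = G.moves := by
  induction G with
  | test T₂ => rfl
  | coin l r hl hr =>
    have h1 : (og T₁ (.coin l r)).moves = max (og T₁ l).moves (og T₁ r).moves + 1 := rfl
    rw [h1, hl, hr]
    rfl
  | say l r hl hr =>
    have h1 : (og T₁ (.say l r)).moves = max (og T₁ l).moves (og T₁ r).moves + 1 := rfl
    rw [h1, hl, hr]
    rfl

theorem op_moves {k : ℕ} (G₂ G : Prot k) : (op G₂ G).moves ≤ G.moves + G₂.moves := by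
  induction G with
  | test T₁ =>
    have h1 : op G₂ (.test T₁) = og T₁ G₂ := rfl
    rw [h1, og_moves]
    exact Nat.le_add_left _ _
  | coin l r hl hr =>
    have h1 : (op G₂ (.coin l r)).moves = max (op G₂ l).moves (op G₂ r).moves + 1 := rfl
    have h2 : (Prot.coin l r).moves = max l.moves r.moves + 1 := rfl
    rw [h1, h2]
    omega
  | say l r hl hr =>
    have h1 : (op G₂ (.say l r)).moves = max (op G₂ l).moves (op G₂ r).moves + 1 := rfl
    have h2 : (Prot.say l r).moves = max l.moves r.moves + 1 := rfl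
    rw [h1, h2]
    omega

theorem og_bd {k : ℕ} (d₁ d₂ s : ℕ) (T₁ : Exam k) (h : Bd d₁ s (.test T₁)) (G : Prot k)
    (hG : Bd d₂ s G) : Bd (d₁ + d₂) s (og T₁ G) := by
  induction G with
  | test T₂ =>
    exact ⟨(oe_depth T₂ T₁).trans (Nat.add_le_add h.1 hG.1), oe_small s T₂ T₁ hG.2 h.2⟩
  | coin l r hl hr => exact ⟨hl hG.1, hr hG.2⟩
  | say l r hl hr => exact ⟨hl hG.1, hr hG.2⟩

theorem op_bd {k : ℕ} (d₁ d₂ s : ℕ) (G₂ : Prot k) (h : Bd d₂ s G₂) (G : Prot k)
    (hG : Bd d₁ s G) : Bd (d₁ + d₂) s (op G₂ G) := by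
  induction G with
  | test T₁ => exact og_bd d₁ d₂ s T₁ hG G₂ h
  | coin l r hl hr => exact ⟨hl hG.1, hr hG.2⟩
  | say l r hl hr => exact ⟨hl hG.1, hr hG.2⟩

/-- ORP: one of the protocols accepts. -/
theorem pf_ORP : T_ORP := by
  intro k G₁ G₂
  refine ⟨op G₂ G₁, op_moves G₂ G₁, fun d₁ d₂ s h1 h2 => op_bd d₁ d₂ s G₂ h2 G₁ h1, fun O => ?_⟩
  rw [op_val, mul_comm]

end Pool.Agent.H42.AVH
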